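import Pool.Agent.Lib.MP_ca0971_gt.OT.Path.GenGP
import Pool.Agent.Lib.MP_ca0971_gt.OT.GpDense
import Pool.Agent.Lib.MP_ca0971_gt.OT.Loc.Near

/-!
# Project OT, Path: generic polygons are dense near a tame polygon
-/

set_option autoImplicit false

namespace Pool.Agent.Lib.MP_ca0971_gt.OT

open Finset Filter Topology

variable {I : Type} [Fintype I] [DecidableEq I] {σ : Equiv.Perm I}

omit [Fintype I] [DecidableEq I] in
/-- A polygon near a tame polygon has different heights at its crossings. -/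
theorem near_hgt {v v' : I → E} {η : ℝ} (hT : Tame σ v) (hn : Near σ v v' η) {i j : I}
    (h : Crs σ v' i j) : ht σ v' i j ≠ ht σ v' j i := by
  have hA : ¬ Adj σ i j := h.1
  have hM : Mt σ v i j := by
    by_contra h0
    exact hn.n1 i j hA h0 h
  have hM' : Mt σ v j i := hM.symm'
  have h1 := hn.n4 i j hM
  have h2 := hn.n4 j i hM'
  have h3 := hT.hgt i j hA hM.2.1 hM.2.2.1 hM.2.2.2.1 hM.2.2.2.2.1 hM.2.2.2.2.2
  intro he
  rcases lt_or_gt_of_ne h3 with h4 | h4
  · exact absurd (h2.1 h4) (by rw [he]; exact lt_irrefl _)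
  · exact absurd (h1.1 h4) (by rw [he]; exact lt_irrefl _)

/-- gp_dense, near_ev (with any η), gen_of_gp: the height condition holds for all near polygons by n1,
n4 and Tame.hgt (a crossing of v' is a meeting of v). -/
theorem gen_dense {v : I → E} (hT : Tame σ v) : ∃ᶠ v' in 𝓝 v, Gen σ v' := by
  obtain ⟨-, h1, h2⟩ := slit_ne hT.slit
  refine ((gp_dense v).and_eventually (near_ev hT one_pos)).mono ?_
  rintro v' ⟨hG, hn⟩
  exact gen_of_gp h1 h2 hG fun i j h => near_hgt hT hn h

end Pool.Agent.Lib.MP_ca0971_gt.OT
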