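import Pool.Agent.Lib.MP_ca0971_gt.OT.Loc.Sym
import Pool.Agent.Lib.MP_ca0971_gt.OT.Ang

/-!
# Project OT, Path: general position gives generic polygons
-/

set_option autoImplicit false

namespace Pool.Agent.Lib.MP_ca0971_gt.OT

open Finset Filter Topology

variable {I : Type} [Fintype I] [DecidableEq I] {σ : Equiv.Perm I}

/-- A quotient with a nonzero planar determinant is in the slit plane. -/
theorem slit_of_dt {d e : ℂ} (h : dt d e ≠ 0) : e / d ∈ Complex.slitPlane := by
  rw [Complex.mem_slitPlane_iff]
  right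
  intro h1
  have hd : d ≠ 0 := by
    rintro rfl
    exact h (by simp [dt])
  have hn : Complex.normSq d ≠ 0 := (Complex.normSq_pos.2 hd).ne'
  rw [Complex.div_im] at h1
  apply h
  have h2 : e.im * d.re / Complex.normSq d - e.re * d.im / Complex.normSq d =
      dt d e / Complex.normSq d := by
    unfold dt
    ring
  rw [h2, div_eq_zero_iff] at h1
  exact h1.resolve_right hn

omit [Fintype I] [DecidableEq I] in
/-- A point of a projected edge is on its line. -/
theorem dt_of_sg {v : I → E} {j : I} {z : ℂ} (h : z ∈ sg σ v j) :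
    dt ((v (σ j)).1 - (v j).1) (z - (v j).1) = 0 := by
  unfold sg at h
  rw [segment_eq_image_lineMap] at h
  obtain ⟨t, -, rfl⟩ := h
  rw [AffineMap.lineMap_apply_module]
  unfold dt
  simp only [Complex.sub_re, Complex.sub_im, Complex.add_re, Complex.add_im, Complex.real_smul,
    Complex.re_ofReal_mul, Complex.im_ofReal_mul]
  ring

omit [Fintype I] [DecidableEq I] in
/-- Consecutive edges meet only in the common corner. -/
theorem corner_ne {v : I → E} {j : I} (h : dt (dd σ v j) (dd σ v (σ j)) ≠ 0) {a b : ℝ}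
    (ha : a ≠ 1) : (v j).1 + (a : ℂ) * dd σ v j ≠ (v (σ j)).1 + (b : ℂ) * dd σ v (σ j) := by
  intro h1
  have e : (v (σ j)).1 = (v j).1 + dd σ v j := by
    unfold dd
    ring
  rw [e] at h1
  have k1 := congrArg Complex.re h1
  have k2 := congrArg Complex.im h1
  simp only [Complex.add_re, Complex.add_im, Complex.re_ofReal_mul, Complex.im_ofReal_mul] at k1 k2
  have h2 : (a - 1) * dt (dd σ v j) (dd σ v (σ j)) = 0 := by
    unfold dt
    linear_combination (dd σ v (σ j)).im * k1 - (dd σ v (σ j)).re * k2
  rcases mul_eq_zero.1 h2 with h3 | h3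
  · exact ha (by linarith)
  · exact h h3

omit [Fintype I] [DecidableEq I] in
/-- slit and ver: no three vertices collinear. trp: let the edges j, k cross i at the same point z. If
j, k are adjacent, z would be on two lines which meet only in the common corner, but z is interior.
Otherwise i, σ i, j, σ j, k, σ k are six different indices and the concurrency determinant is not 0
(par_cdet, cdet). -/
theorem gen_of_gp {v : I → E} (h1 : ∀ i, σ i ≠ i) (h2 : ∀ i, σ (σ i) ≠ i) (hGP : GP v)
    (hh : ∀ i j, Crs σ v i j → ht σ v i j ≠ ht σ v j i) : Gen σ v := by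
  have hc : ∀ i, dt (dd σ v i) (dd σ v (σ i)) ≠ 0 := by
    intro i
    have h := hGP.1 i (σ i) (σ (σ i)) (h1 i).symm (h2 i).symm (h1 (σ i)).symm
    intro h3
    apply h
    unfold dd at h3
    unfold dt at h3 ⊢
    simp only [Complex.sub_re, Complex.sub_im] at h3 ⊢
    linear_combination h3
  have adj : ∀ i j, Crs σ v i j → Crs σ v i (σ j) → par σ v i j = par σ v i (σ j) → False := by
    intro i j hj hk he
    have e1 : mp σ v i j = mp σ v i (σ j) := by
      unfold mp
      rw [he]
    rw [mp_symm v hj.2.1, mp_symm v hk.2.1] at e1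
    unfold mp at e1
    exact corner_ne (hc j) hj.2.2.2.2.2.ne e1
  refine ⟨fun i => slit_of_dt (hc i), fun i j hj hk hs => ?_, fun i j k hj hk he => ?_, hh⟩
  · exact hGP.1 j (σ j) i (h1 j).symm hj hk (dt_of_sg hs)
  · by_contra hjk
    by_cases ha : Adj σ j k
    · rcases ha with ha | ha | ha
      · exact hjk ha
      · subst ha
        exact adj i j hj hk he
      · subst ha
        exact adj i k hk hj he.symm
    · have a1 := hj.1
      have a2 := hk.1
      unfold Adj at a1 a2 ha
      push Not at a1 a2 ha
      have hnd : [i, σ i, j, σ j, k, σ k].Nodup := by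
        have s1 : σ i ≠ σ j := fun h => a1.1 (σ.injective h)
        have s2 : σ i ≠ σ k := fun h => a2.1 (σ.injective h)
        have s3 : σ j ≠ σ k := fun h => hjk (σ.injective h)
        simp only [List.nodup_cons, List.mem_cons, List.not_mem_nil, or_false, not_or,
          not_false_eq_true, List.nodup_nil, and_true]
        exact ⟨⟨(h1 i).symm, a1.1, a1.2.2, a2.1, a2.2.2⟩, ⟨a1.2.1.symm, s1, a2.2.1.symm, s2⟩,
          ⟨(h1 j).symm, ha.1, ha.2.2⟩, ⟨ha.2.1.symm, s3⟩, (h1 k).symm⟩
      have h := hGP.2 i (σ i) j (σ j) k (σ k) hnd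
      have hcd := par_cdet v hj.2.1 hk.2.1
      rw [he, sub_self, zero_mul] at hcd
      apply h
      have h3 : cdet σ v i j k = 0 := by linarith
      unfold cdet dd dt at h3
      unfold dt
      simp only [Complex.sub_re, Complex.sub_im] at h3 ⊢
      linear_combination h3

omit [Fintype I] [DecidableEq I] in
/-- A polygon which is embedded in space has different heights at its crossings. -/
theorem hgt_of_dis {v : I → E}
    (hd : ∀ i j, ¬ Adj σ i j → Disjoint (segment ℝ (v i) (v (σ i))) (segment ℝ (v j) (v (σ j))))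
    (i j : I) (h : Crs σ v i j) : ht σ v i j ≠ ht σ v j i := by
  have key : ∀ i j, Crs σ v i j → (mp σ v i j, ht σ v i j) ∈ segment ℝ (v i) (v (σ i)) := by
    intro i j h
    rw [segment_eq_image_lineMap]
    refine ⟨par σ v i j, ⟨h.2.2.1.le, h.2.2.2.1.le⟩, ?_⟩
    rw [AffineMap.lineMap_apply_module']
    apply Prod.ext
    · unfold mp dd
      simp only [Prod.fst_add, Prod.smul_fst, Prod.fst_sub, Complex.real_smul]
      ring
    · unfold ht dh
      simp only [Prod.snd_add, Prod.smul_snd, Prod.snd_sub, smul_eq_mul]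
      ring
  intro he
  have k1 := key i j h
  have k2 := key j i h.symm'
  rw [← mp_symm v h.2.1, ← he] at k2
  exact Set.disjoint_left.1 (hd i j h.1) k1 k2

omit [Fintype I] [DecidableEq I] in
theorem slit_ne {v : I → E} (h : ∀ i, dd σ v (σ i) / dd σ v i ∈ Complex.slitPlane) :
    (∀ i, dd σ v i ≠ 0) ∧ (∀ i, σ i ≠ i) ∧ (∀ i, σ (σ i) ≠ i) := by
  have h0 : ∀ i, dd σ v i ≠ 0 := by
    intro i hi
    have := h i
    rw [hi, div_zero] at this
    exact Complex.slitPlane_ne_zero this rfl
  refine ⟨h0, fun i hi => h0 i ?_, fun i hi => ?_⟩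
  · unfold dd
    rw [hi, sub_self]
  · have e : dd σ v (σ i) = - dd σ v i := by
      unfold dd
      rw [hi]
      ring
    have := h i
    rw [e, neg_div, div_self (h0 i), Complex.mem_slitPlane_iff] at this
    rcases this with h1 | h1
    · norm_num at h1
    · exact h1 (by simp)

end Pool.Agent.Lib.MP_ca0971_gt.OT
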