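import Pool.Agent.Lib.MP_ca0971_gt.OT.Path.Path

/-!
# Project OT, Path: moving one vertex along a segment
-/

set_option autoImplicit false

namespace Pool.Agent.Lib.MP_ca0971_gt.OT

open Finset Filter Topology

variable {I : Type} [Fintype I] [DecidableEq I] {σ : Equiv.Perm I}

/-- The polygon in which the vertex k is at the point lineMap x0 x1 t. -/
noncomputable def mv (v : I → E) (k : I) (x0 x1 : E) (t : ℝ) : I → E :=
  Function.update v k (AffineMap.lineMap x0 x1 t)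

/-- Hypotheses for a move of the vertex k from x0 to x1. Fixed edges: those which are not incident with
k. -/
structure MoveD (σ : Equiv.Perm I) (v : I → E) (k : I) (x0 x1 : E) : Prop where
  slit : ∀ t ∈ Set.Icc (0 : ℝ) 1, ∀ i,
    dd σ (mv v k x0 x1 t) (σ i) / dd σ (mv v k x0 x1 t) i ∈ Complex.slitPlane
  dis : ∀ t ∈ Set.Icc (0 : ℝ) 1, ∀ i j, ¬ Adj σ i j →
    Disjoint (segment ℝ (mv v k x0 x1 t i) (mv v k x0 x1 t (σ i)))
      (segment ℝ (mv v k x0 x1 t j) (mv v k x0 x1 t (σ j)))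
  fix0 : ∀ i j, i ≠ k → j ≠ k → i ≠ j → (v i).1 ≠ (v j).1
  fix1 : ∀ i j, i ≠ k → j ≠ k → σ j ≠ k → i ≠ j → i ≠ σ j →
    dt ((v i).1 - (v j).1) (dd σ v j) ≠ 0
  fix2 : ∀ i j l, i ≠ k → σ i ≠ k → j ≠ k → σ j ≠ k → l ≠ k → σ l ≠ k → Crs σ v i j →
    Crs σ v i l → par σ v i j = par σ v i l → j = l
  pth0 : ∀ t ∈ Set.Icc (0 : ℝ) 1, ∀ i, i ≠ k → (AffineMap.lineMap x0 x1 t : E).1 ≠ (v i).1
  pth1 : ∀ t ∈ Set.Icc (0 : ℝ) 1, ∀ i j, i ≠ k → σ i ≠ k → j ≠ k → σ j ≠ k → Crs σ v i j →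
    (AffineMap.lineMap x0 x1 t : E).1 ≠ mp σ v i j
  g0 : Gen σ (mv v k x0 x1 0)
  g1 : Gen σ (mv v k x0 x1 1)

/-! ### Elementary facts on edges -/

omit [Fintype I] [DecidableEq I] in
theorem mvl_mem_sg {w : I → E} {x : I} {z : ℂ} :
    z ∈ sg σ w x ↔ ∃ s : ℝ, 0 ≤ s ∧ s ≤ 1 ∧ z = (w x).1 + (s : ℂ) * dd σ w x := by
  rw [sg, segment_eq_image']
  constructor
  · rintro ⟨s, hs, h⟩
    refine ⟨s, hs.1, hs.2, ?_⟩
    rw [← h]
    simp [dd]
  · rintro ⟨s, h0, h1, h⟩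
    refine ⟨s, ⟨h0, h1⟩, ?_⟩
    rw [h]
    simp [dd]

omit [Fintype I] [DecidableEq I] in
/-- Two consecutive edges meet only in the common corner. -/
theorem mvl_slit_meet {w : I → E} {i : I} (hd : dd σ w i ≠ 0)
    (hsl : dd σ w (σ i) / dd σ w i ∈ Complex.slitPlane) {z : ℂ} (h1 : z ∈ sg σ w i)
    (h2 : z ∈ sg σ w (σ i)) : z = (w (σ i)).1 := by
  obtain ⟨s, hs0, hs1, hs⟩ := mvl_mem_sg.1 h1
  obtain ⟨t, ht0, ht1, ht⟩ := mvl_mem_sg.1 h2
  have e : ((s : ℂ) - 1) * dd σ w i = (t : ℂ) * dd σ w (σ i) := by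
    have h3 : (w (σ i)).1 = (w i).1 + dd σ w i := by simp [dd]
    rw [h3] at ht
    have := hs.symm.trans ht
    linear_combination this
  rcases eq_or_lt_of_le ht0 with h0 | h0
  · rw [ht, ← h0]
    simp
  · exfalso
    have ht' : (t : ℂ) ≠ 0 := by exact_mod_cast h0.ne'
    have e2 : dd σ w (σ i) / dd σ w i = (((s - 1) / t : ℝ) : ℂ) := by
      rw [div_eq_iff hd]
      push_cast
      field_simp
      linear_combination -e
    rw [e2] at hsl
    rcases Complex.mem_slitPlane_iff.1 hsl with h | h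
    · rw [Complex.ofReal_re] at h
      have : (s - 1) / t ≤ 0 := div_nonpos_of_nonpos_of_nonneg (by linarith) ht0
      linarith
    · exact h (Complex.ofReal_im _)

omit [Fintype I] [DecidableEq I] in
/-- A point of an edge is on its line. -/
theorem mvl_dt_of_mem {w : I → E} {j : I} {z : ℂ} (h : z ∈ sg σ w j) :
    dt (z - (w j).1) (dd σ w j) = 0 := by
  obtain ⟨s, -, -, hs⟩ := mvl_mem_sg.1 h
  rw [hs]
  simp only [dt, Complex.add_re, Complex.add_im, Complex.sub_re, Complex.sub_im,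
    Complex.re_ofReal_mul, Complex.im_ofReal_mul]
  ring

omit [Fintype I] [DecidableEq I] in
/-- If two parallel edges have a common point then the start of the first one is on the line of the
second one. -/
theorem mvl_dt_start {w : I → E} {i j : I} {z : ℂ} (hp : dt (dd σ w i) (dd σ w j) = 0)
    (h1 : z ∈ sg σ w i) (h2 : z ∈ sg σ w j) : dt ((w i).1 - (w j).1) (dd σ w j) = 0 := by
  obtain ⟨s, -, -, hs⟩ := mvl_mem_sg.1 h1
  have h3 := mvl_dt_of_mem h2
  rw [hs] at h3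
  simp only [dt, Complex.add_re, Complex.add_im, Complex.sub_re, Complex.sub_im,
    Complex.re_ofReal_mul, Complex.im_ofReal_mul] at h3 hp ⊢
  linear_combination h3 - s * hp

omit [Fintype I] [DecidableEq I] in
/-- The same for the end of the first one. -/
theorem mvl_dt_end {w : I → E} {i j : I} {z : ℂ} (hp : dt (dd σ w i) (dd σ w j) = 0)
    (h1 : z ∈ sg σ w i) (h2 : z ∈ sg σ w j) : dt ((w (σ i)).1 - (w j).1) (dd σ w j) = 0 := by
  have h3 := mvl_dt_start hp h1 h2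
  have e : (w (σ i)).1 = (w i).1 + dd σ w i := by
    unfold dd
    ring
  rw [e]
  simp only [dt, Complex.add_re, Complex.add_im, Complex.sub_re, Complex.sub_im] at h3 hp ⊢
  linear_combination h3 + hp

omit [Fintype I] [DecidableEq I] in
theorem mvl_crs_mem {w : I → E} {i j : I} (h : Crs σ w i j) :
    mp σ w i j ∈ sg σ w i ∧ mp σ w i j ∈ sg σ w j := by
  obtain ⟨h1, h2, h3, h4, h5, h6⟩ := h
  refine ⟨mvl_mem_sg.2 ⟨par σ w i j, h3.le, h4.le, rfl⟩, ?_⟩
  rw [mp_symm w h2]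
  exact mvl_mem_sg.2 ⟨par σ w j i, h5.le, h6.le, rfl⟩

omit [Fintype I] [DecidableEq I] in
/-- The crossing point is not the start of the edge. -/
theorem mvl_crs_ne_start {w : I → E} {i j : I} (h : Crs σ w i j) (hd : dd σ w i ≠ 0) :
    mp σ w i j ≠ (w i).1 := by
  intro e
  rw [mp, add_eq_left, mul_eq_zero] at e
  rcases e with e | e
  · have : par σ w i j = 0 := by exact_mod_cast e
    have := h.2.2.1
    linarith
  · exact hd e

omit [Fintype I] [DecidableEq I] in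
/-- The crossing point is not the end of the edge. -/
theorem mvl_crs_ne_end {w : I → E} {i j : I} (h : Crs σ w i j) (hd : dd σ w i ≠ 0) :
    mp σ w i j ≠ (w (σ i)).1 := by
  intro e
  have e3 : (w (σ i)).1 = (w i).1 + (1 : ℂ) * dd σ w i := by
    unfold dd
    ring
  rw [mp, e3, add_right_inj] at e
  have e4 := mul_right_cancel₀ hd e
  have : par σ w i j = 1 := by exact_mod_cast e4
  have := h.2.2.2.1
  linarith

omit [Fintype I] [DecidableEq I] in
/-- Two edges which are not adjacent and not parallel, and meet in a point which is not a corner,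
cross. -/
theorem mvl_crs_mk {w : I → E} {i j : I} {z : ℂ} (ha : ¬ Adj σ i j)
    (hp : dt (dd σ w i) (dd σ w j) ≠ 0) (h1 : z ∈ sg σ w i) (h2 : z ∈ sg σ w j)
    (n1 : z ≠ (w i).1) (n2 : z ≠ (w (σ i)).1) (n3 : z ≠ (w j).1) (n4 : z ≠ (w (σ j)).1) :
    Crs σ w i j ∧ mp σ w i j = z := by
  obtain ⟨s, hs0, hs1, hs⟩ := mvl_mem_sg.1 h1
  obtain ⟨t, ht0, ht1, ht⟩ := mvl_mem_sg.1 h2
  have u := par_unique w hp (hs.symm.trans ht)
  have s0 : s ≠ 0 := by
    rintro rfl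
    exact n1 (by rw [hs]; simp)
  have s1 : s ≠ 1 := by
    rintro rfl
    exact n2 (by rw [hs]; simp [dd])
  have t0 : t ≠ 0 := by
    rintro rfl
    exact n3 (by rw [ht]; simp)
  have t1 : t ≠ 1 := by
    rintro rfl
    exact n4 (by rw [ht]; simp [dd])
  refine ⟨⟨ha, hp, ?_, ?_, ?_, ?_⟩, ?_⟩
  · rw [← u.1]; exact lt_of_le_of_ne hs0 s0.symm
  · rw [← u.1]; exact lt_of_le_of_ne hs1 s1
  · rw [← u.2]; exact lt_of_le_of_ne ht0 t0.symm
  · rw [← u.2]; exact lt_of_le_of_ne ht1 t1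
  · rw [mp, ← u.1, hs]

/-! ### The moved polygon -/

omit [Fintype I] in
theorem mv_self (v : I → E) (k : I) (x0 x1 : E) (t : ℝ) :
    mv v k x0 x1 t k = AffineMap.lineMap x0 x1 t := by
  rw [mv, Function.update_self]

omit [Fintype I] in
theorem mv_ne (v : I → E) {k i : I} (x0 x1 : E) (t : ℝ) (h : i ≠ k) :
    mv v k x0 x1 t i = v i := by
  rw [mv, Function.update_of_ne h]

omit [Fintype I] in
theorem dd_mv (v : I → E) {k i : I} (x0 x1 : E) (t : ℝ) (h : i ≠ k) (h' : σ i ≠ k) :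
    dd σ (mv v k x0 x1 t) i = dd σ v i := by
  rw [dd, dd, mv_ne v x0 x1 t h, mv_ne v x0 x1 t h']

omit [Fintype I] in
theorem par_mv (v : I → E) {k i j : I} (x0 x1 : E) (t : ℝ) (h : i ≠ k) (h' : σ i ≠ k)
    (g : j ≠ k) (g' : σ j ≠ k) : par σ (mv v k x0 x1 t) i j = par σ v i j := by
  rw [par, par, dd_mv v x0 x1 t h h', dd_mv v x0 x1 t g g', mv_ne v x0 x1 t h, mv_ne v x0 x1 t g]

omit [Fintype I] in
theorem mp_mv (v : I → E) {k i j : I} (x0 x1 : E) (t : ℝ) (h : i ≠ k) (h' : σ i ≠ k)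
    (g : j ≠ k) (g' : σ j ≠ k) : mp σ (mv v k x0 x1 t) i j = mp σ v i j := by
  rw [mp, mp, par_mv v x0 x1 t h h' g g', dd_mv v x0 x1 t h h', mv_ne v x0 x1 t h]

omit [Fintype I] in
theorem crs_mv (v : I → E) {k i j : I} (x0 x1 : E) (t : ℝ) (h : i ≠ k) (h' : σ i ≠ k)
    (g : j ≠ k) (g' : σ j ≠ k) : Crs σ (mv v k x0 x1 t) i j ↔ Crs σ v i j := by
  unfold Crs
  rw [par_mv v x0 x1 t h h' g g', par_mv v x0 x1 t g g' h h', dd_mv v x0 x1 t h h',
    dd_mv v x0 x1 t g g']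

omit [Fintype I] in
theorem MoveD.slit_dd {v : I → E} {k : I} {x0 x1 : E} (h : MoveD σ v k x0 x1) {t : ℝ}
    (ht : t ∈ Set.Icc (0 : ℝ) 1) (i : I) : dd σ (mv v k x0 x1 t) i ≠ 0 := by
  intro e
  have := h.slit t ht i
  rw [e, div_zero] at this
  exact Complex.zero_notMem_slitPlane this

omit [Fintype I] in
theorem MoveD.slit_fix {v : I → E} {k : I} {x0 x1 : E} (h : MoveD σ v k x0 x1) {t : ℝ}
    (ht : t ∈ Set.Icc (0 : ℝ) 1) (i : I) : σ i ≠ i := by
  intro e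
  exact h.slit_dd ht i (by rw [dd, e, sub_self])

omit [Fintype I] in
theorem MoveD.meet {v : I → E} {k : I} {x0 x1 : E} (h : MoveD σ v k x0 x1) {t : ℝ}
    (ht : t ∈ Set.Icc (0 : ℝ) 1) {i : I} {z : ℂ} (h1 : z ∈ sg σ (mv v k x0 x1 t) i)
    (h2 : z ∈ sg σ (mv v k x0 x1 t) (σ i)) : z = (mv v k x0 x1 t (σ i)).1 :=
  mvl_slit_meet (h.slit_dd ht i) (h.slit t ht i) h1 h2

omit [Fintype I] in
/-- A fixed vertex is not on the line of a fixed edge. -/
theorem MoveD.off {v : I → E} {k : I} {x0 x1 : E} (h : MoveD σ v k x0 x1) {t : ℝ} {i j : I}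
    (h1 : i ≠ k) (h2 : j ≠ k) (h3 : σ j ≠ k) (h4 : i ≠ j) (h5 : i ≠ σ j) :
    dt ((mv v k x0 x1 t i).1 - (mv v k x0 x1 t j).1) (dd σ (mv v k x0 x1 t) j) ≠ 0 := by
  rw [dd_mv v x0 x1 t h2 h3, mv_ne v x0 x1 t h1, mv_ne v x0 x1 t h2]
  exact h.fix1 i j h1 h2 h3 h4 h5

omit [Fintype I] in
/-- The vertices have different projections. -/
theorem MoveD.vt {v : I → E} {k : I} {x0 x1 : E} (h : MoveD σ v k x0 x1) {t : ℝ}
    (ht : t ∈ Set.Icc (0 : ℝ) 1) (i j : I) (hij : i ≠ j) :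
    (mv v k x0 x1 t i).1 ≠ (mv v k x0 x1 t j).1 := by
  by_cases hi : i = k
  · subst hi
    rw [mv_self, mv_ne v x0 x1 t hij.symm]
    exact h.pth0 t ht j hij.symm
  · by_cases hj : j = k
    · subst hj
      rw [mv_self, mv_ne v x0 x1 t hi]
      exact (h.pth0 t ht i hi).symm
    · rw [mv_ne v x0 x1 t hi, mv_ne v x0 x1 t hj]
      exact h.fix0 i j hi hj hij

omit [Fintype I] in
/-- Parallel edges which are not adjacent are disjoint, if the second one is fixed. -/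
theorem MoveD.pr {v : I → E} {k : I} {x0 x1 : E} (h : MoveD σ v k x0 x1) {t : ℝ}
    (ht : t ∈ Set.Icc (0 : ℝ) 1) {i j : I} (ha : ¬ Adj σ i j) (hj : j ≠ k) (hj' : σ j ≠ k)
    (hp : dt (dd σ (mv v k x0 x1 t) i) (dd σ (mv v k x0 x1 t) j) = 0) :
    Disjoint (sg σ (mv v k x0 x1 t) i) (sg σ (mv v k x0 x1 t) j) := by
  rw [Set.disjoint_left]
  intro z h1 h2
  have a1 : i ≠ j := fun e => ha (Or.inl e)
  have a2 : σ i ≠ j := fun e => ha (Or.inr (Or.inl e.symm))
  have a3 : i ≠ σ j := fun e => ha (Or.inr (Or.inr e))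
  have a4 : σ i ≠ σ j := fun e => a1 (σ.injective e)
  by_cases hi : i = k
  · have hi' : σ i ≠ k := by
      rw [← hi]
      exact h.slit_fix ht i
    exact h.off hi' hj hj' a2 a4 (mvl_dt_end hp h1 h2)
  · exact h.off hi hj hj' a1 a3 (mvl_dt_start hp h1 h2)

omit [Fintype I] [DecidableEq I] in
/-- The two edges at k are adjacent. -/
theorem mvl_adj {k i j : I} (hi : ¬ (i ≠ k ∧ σ i ≠ k)) (hj : ¬ (j ≠ k ∧ σ j ≠ k)) :
    Adj σ i j := by
  have hi' : i = k ∨ σ i = k := by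
    by_contra hc
    push Not at hc
    exact hi hc
  have hj' : j = k ∨ σ j = k := by
    by_contra hc
    push Not at hc
    exact hj hc
  rcases hi' with hi' | hi' <;> rcases hj' with hj' | hj'
  · exact Or.inl (hi'.trans hj'.symm)
  · exact Or.inr (Or.inr (hi'.trans hj'.symm))
  · exact Or.inr (Or.inl (hj'.trans hi'.symm))
  · exact Or.inl (σ.injective (hi'.trans hj'.symm))

omit [Fintype I] [DecidableEq I] in
/-- Two different edges at k are k and the edge before it. -/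
theorem mvl_two {k i j : I} (hij : i ≠ j) (hi : ¬ (i ≠ k ∧ σ i ≠ k)) (hj : ¬ (j ≠ k ∧ σ j ≠ k)) :
    (i = k ∧ σ j = k) ∨ (j = k ∧ σ i = k) := by
  have hi' : i = k ∨ σ i = k := by
    by_contra hc
    push Not at hc
    exact hi hc
  have hj' : j = k ∨ σ j = k := by
    by_contra hc
    push Not at hc
    exact hj hc
  rcases hi' with hi' | hi' <;> rcases hj' with hj' | hj'
  · exact absurd (hi'.trans hj'.symm) hij
  · exact Or.inl ⟨hi', hj'⟩
  · exact Or.inr ⟨hj', hi'⟩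
  · exact absurd (σ.injective (hi'.trans hj'.symm)) hij

omit [Fintype I] in
/-- Parallel edges which are not adjacent are disjoint. -/
theorem MoveD.pr0 {v : I → E} {k : I} {x0 x1 : E} (h : MoveD σ v k x0 x1) {t : ℝ}
    (ht : t ∈ Set.Icc (0 : ℝ) 1) {i j : I} (ha : ¬ Adj σ i j)
    (hp : dt (dd σ (mv v k x0 x1 t) i) (dd σ (mv v k x0 x1 t) j) = 0) :
    Disjoint (sg σ (mv v k x0 x1 t) i) (sg σ (mv v k x0 x1 t) j) := by
  by_cases hj : j ≠ k ∧ σ j ≠ k
  · exact h.pr ht ha hj.1 hj.2 hp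
  · by_cases hi : i ≠ k ∧ σ i ≠ k
    · refine (h.pr ht (fun e => ha (Adj.symm' e)) hi.1 hi.2 ?_).symm
      rw [dt_swap, hp, neg_zero]
    · exact absurd (mvl_adj hi hj) ha

omit [Fintype I] in
/-- Both moving edges meet only in the moving vertex. -/
theorem MoveD.meet_k {v : I → E} {k : I} {x0 x1 : E} (h : MoveD σ v k x0 x1) {t : ℝ}
    (ht : t ∈ Set.Icc (0 : ℝ) 1) {i j : I} (hij : i ≠ j) (hi : ¬ (i ≠ k ∧ σ i ≠ k))
    (hj : ¬ (j ≠ k ∧ σ j ≠ k)) {z : ℂ} (h1 : z ∈ sg σ (mv v k x0 x1 t) i)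
    (h2 : z ∈ sg σ (mv v k x0 x1 t) j) : z = (mv v k x0 x1 t k).1 := by
  rcases mvl_two hij hi hj with ⟨e1, e2⟩ | ⟨e1, e2⟩
  · subst e2
    subst e1
    exact h.meet ht h2 h1
  · subst e2
    subst e1
    exact h.meet ht h1 h2

omit [Fintype I] in
/-- Two fixed edges do not meet in the moving vertex. -/
theorem MoveD.no_k {v : I → E} {k : I} {x0 x1 : E} (h : MoveD σ v k x0 x1) {t : ℝ}
    (ht : t ∈ Set.Icc (0 : ℝ) 1) {i j : I} (hij : i ≠ j) (hi : i ≠ k ∧ σ i ≠ k)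
    (hj : j ≠ k ∧ σ j ≠ k) (h1 : (mv v k x0 x1 t k).1 ∈ sg σ (mv v k x0 x1 t) i)
    (h2 : (mv v k x0 x1 t k).1 ∈ sg σ (mv v k x0 x1 t) j) : False := by
  have n1 := h.vt ht k i hi.1.symm
  have n2 := h.vt ht k (σ i) hi.2.symm
  have n3 := h.vt ht k j hj.1.symm
  have n4 := h.vt ht k (σ j) hj.2.symm
  have ha : ¬ Adj σ i j := by
    rintro (e | e | e)
    · exact hij e
    · subst e
      exact n2 (h.meet ht h1 h2)
    · subst e
      exact n4 (h.meet ht h2 h1)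
  have hp : dt (dd σ (mv v k x0 x1 t) i) (dd σ (mv v k x0 x1 t) j) ≠ 0 := fun h0 =>
    Set.disjoint_left.1 (h.pr0 ht ha h0) h1 h2
  obtain ⟨hc, hm⟩ := mvl_crs_mk ha hp h1 h2 n1 n2 n3 n4
  rw [crs_mv v x0 x1 t hi.1 hi.2 hj.1 hj.2] at hc
  rw [mp_mv v x0 x1 t hi.1 hi.2 hj.1 hj.2, mv_self] at hm
  exact h.pth1 t ht i j hi.1 hi.2 hj.1 hj.2 hc hm.symm

omit [Fintype I] in
/-- A vertex is on at most one edge which does not contain it. -/
theorem MoveD.on1 {v : I → E} {k : I} {x0 x1 : E} (h : MoveD σ v k x0 x1) {t : ℝ}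
    (ht : t ∈ Set.Icc (0 : ℝ) 1) (i j l : I) (hj : j ≠ i) (hj' : σ j ≠ i) (hl : l ≠ i)
    (hl' : σ l ≠ i) (h1 : (mv v k x0 x1 t i).1 ∈ sg σ (mv v k x0 x1 t) j)
    (h2 : (mv v k x0 x1 t i).1 ∈ sg σ (mv v k x0 x1 t) l) : j = l := by
  by_contra hjl
  by_cases hi : i = k
  · subst hi
    exact h.no_k ht hjl ⟨hj, hj'⟩ ⟨hl, hl'⟩ h1 h2
  · have mj : ¬ (j ≠ k ∧ σ j ≠ k) := fun g =>
      h.off hi g.1 g.2 hj.symm hj'.symm (mvl_dt_of_mem h1)
    have ml : ¬ (l ≠ k ∧ σ l ≠ k) := fun g =>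
      h.off hi g.1 g.2 hl.symm hl'.symm (mvl_dt_of_mem h2)
    exact h.vt ht i k hi (h.meet_k ht hjl mj ml h1 h2)

omit [Fintype I] in
/-- Two partners of an edge at the same point are not both moving. -/
theorem MoveD.tr_mov {v : I → E} {k : I} {x0 x1 : E} (h : MoveD σ v k x0 x1) {t : ℝ}
    (ht : t ∈ Set.Icc (0 : ℝ) 1) {i j l : I} (hj : ¬ (j ≠ k ∧ σ j ≠ k))
    (hl : ¬ (l ≠ k ∧ σ l ≠ k)) (h1 : Crs σ (mv v k x0 x1 t) i j) (h2 : Crs σ (mv v k x0 x1 t) i l)
    (he : par σ (mv v k x0 x1 t) i j = par σ (mv v k x0 x1 t) i l) : j = l := by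
  by_contra hjl
  have hm : mp σ (mv v k x0 x1 t) i j = mp σ (mv v k x0 x1 t) i l := by
    rw [mp, mp, he]
  have m1 := (mvl_crs_mem h1).2
  have m2 := (mvl_crs_mem h2).2
  rw [← hm] at m2
  have e := h.meet_k ht hjl hj hl m1 m2
  rcases mvl_two hjl hj hl with ⟨e1, e2⟩ | ⟨e1, e2⟩
  · subst e1
    apply mvl_crs_ne_start h1.symm' (h.slit_dd ht j)
    rw [← mp_symm _ h1.2.1]
    exact e
  · subst e1
    apply mvl_crs_ne_start h2.symm' (h.slit_dd ht l)
    rw [← mp_symm _ h2.2.1, ← hm]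
    exact e

omit [Fintype I] in
/-- Two fixed partners of a moving edge at the same point cross each other in this point. -/
theorem MoveD.tr_crs {v : I → E} {k : I} {x0 x1 : E} (h : MoveD σ v k x0 x1) {t : ℝ}
    (ht : t ∈ Set.Icc (0 : ℝ) 1) {i j l : I} (hjl : j ≠ l) (h1 : Crs σ (mv v k x0 x1 t) i j)
    (h2 : Crs σ (mv v k x0 x1 t) i l)
    (he : par σ (mv v k x0 x1 t) i j = par σ (mv v k x0 x1 t) i l) :
    Crs σ (mv v k x0 x1 t) j l ∧ mp σ (mv v k x0 x1 t) j l = mp σ (mv v k x0 x1 t) i j := by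
  have hm : mp σ (mv v k x0 x1 t) i j = mp σ (mv v k x0 x1 t) i l := by
    rw [mp, mp, he]
  have m1 := (mvl_crs_mem h1).2
  have m2 := (mvl_crs_mem h2).2
  rw [← hm] at m2
  have n1 : mp σ (mv v k x0 x1 t) i j ≠ (mv v k x0 x1 t j).1 := by
    rw [mp_symm _ h1.2.1]
    exact mvl_crs_ne_start h1.symm' (h.slit_dd ht j)
  have n2 : mp σ (mv v k x0 x1 t) i j ≠ (mv v k x0 x1 t (σ j)).1 := by
    rw [mp_symm _ h1.2.1]
    exact mvl_crs_ne_end h1.symm' (h.slit_dd ht j)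
  have n3 : mp σ (mv v k x0 x1 t) i j ≠ (mv v k x0 x1 t l).1 := by
    rw [hm, mp_symm _ h2.2.1]
    exact mvl_crs_ne_start h2.symm' (h.slit_dd ht l)
  have n4 : mp σ (mv v k x0 x1 t) i j ≠ (mv v k x0 x1 t (σ l)).1 := by
    rw [hm, mp_symm _ h2.2.1]
    exact mvl_crs_ne_end h2.symm' (h.slit_dd ht l)
  have ha : ¬ Adj σ j l := by
    rintro (e | e | e)
    · exact hjl e
    · subst e
      exact n2 (h.meet ht m1 m2)
    · subst e
      exact n4 (h.meet ht m2 m1)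
  have hp : dt (dd σ (mv v k x0 x1 t) j) (dd σ (mv v k x0 x1 t) l) ≠ 0 := fun h0 =>
    Set.disjoint_left.1 (h.pr0 ht ha h0) m1 m2
  exact mvl_crs_mk ha hp m1 m2 n1 n2 n3 n4

omit [Fintype I] in
/-- No quadruple points. -/
theorem MoveD.tr {v : I → E} {k : I} {x0 x1 : E} (h : MoveD σ v k x0 x1) {t : ℝ}
    (ht : t ∈ Set.Icc (0 : ℝ) 1) (i j l m : I) (h1 : Crs σ (mv v k x0 x1 t) i j)
    (h2 : Crs σ (mv v k x0 x1 t) i l) (h3 : Crs σ (mv v k x0 x1 t) i m)
    (e1 : par σ (mv v k x0 x1 t) i j = par σ (mv v k x0 x1 t) i l)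
    (e2 : par σ (mv v k x0 x1 t) i j = par σ (mv v k x0 x1 t) i m) :
    j = l ∨ j = m ∨ l = m := by
  by_cases hi : i ≠ k ∧ σ i ≠ k
  · -- the edge i is fixed
    have fx : ∀ a b : I, Crs σ (mv v k x0 x1 t) i a → Crs σ (mv v k x0 x1 t) i b →
        par σ (mv v k x0 x1 t) i a = par σ (mv v k x0 x1 t) i b → (a ≠ k ∧ σ a ≠ k) →
        (b ≠ k ∧ σ b ≠ k) → a = b := by
      intro a b ca cb e ga gb
      rw [crs_mv v x0 x1 t hi.1 hi.2 ga.1 ga.2] at ca
      rw [crs_mv v x0 x1 t hi.1 hi.2 gb.1 gb.2] at cb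
      rw [par_mv v x0 x1 t hi.1 hi.2 ga.1 ga.2, par_mv v x0 x1 t hi.1 hi.2 gb.1 gb.2] at e
      exact h.fix2 i a b hi.1 hi.2 ga.1 ga.2 gb.1 gb.2 ca cb e
    by_cases hj : j ≠ k ∧ σ j ≠ k <;> by_cases hl : l ≠ k ∧ σ l ≠ k
    · exact Or.inl (fx j l h1 h2 e1 hj hl)
    · by_cases hm : m ≠ k ∧ σ m ≠ k
      · exact Or.inr (Or.inl (fx j m h1 h3 e2 hj hm))
      · exact Or.inr (Or.inr (h.tr_mov ht hl hm h2 h3 (e1.symm.trans e2)))
    · by_cases hm : m ≠ k ∧ σ m ≠ k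
      · exact Or.inr (Or.inr (fx l m h2 h3 (e1.symm.trans e2) hl hm))
      · exact Or.inr (Or.inl (h.tr_mov ht hj hm h1 h3 e2))
    · exact Or.inl (h.tr_mov ht hj hl h1 h2 e1)
  · -- the edge i is moving: its partners are fixed
    have fx : ∀ a : I, Crs σ (mv v k x0 x1 t) i a → a ≠ k ∧ σ a ≠ k := by
      intro a ca
      by_contra ga
      exact ca.1 (mvl_adj hi ga)
    by_contra hc
    push Not at hc
    obtain ⟨c1, c2, c3⟩ := hc
    have gj := fx j h1
    have gl := fx l h2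
    have gm := fx m h3
    obtain ⟨d1, f1⟩ := h.tr_crs ht c1 h1 h2 e1
    obtain ⟨d2, f2⟩ := h.tr_crs ht c2 h1 h3 e2
    have e3 : par σ (mv v k x0 x1 t) j l = par σ (mv v k x0 x1 t) j m := by
      rw [par_eq_iff _ (h.slit_dd ht j), f1, f2]
    rw [crs_mv v x0 x1 t gj.1 gj.2 gl.1 gl.2] at d1
    rw [crs_mv v x0 x1 t gj.1 gj.2 gm.1 gm.2] at d2
    rw [par_mv v x0 x1 t gj.1 gj.2 gl.1 gl.2, par_mv v x0 x1 t gj.1 gj.2 gm.1 gm.2] at e3
    exact c3 (h.fix2 j l m gj.1 gj.2 gl.1 gl.2 gm.1 gm.2 d1 d2 e3)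

omit [Fintype I] [DecidableEq I] in
/-- The point of an edge in space over a given parameter. -/
theorem mvl_space {w : I → E} {i : I} {s : ℝ} (h0 : 0 ≤ s) (h1 : s ≤ 1) :
    (((w i).1 + (s : ℂ) * dd σ w i, (w i).2 + s * dh σ w i) : E) ∈ segment ℝ (w i) (w (σ i)) := by
  rw [segment_eq_image']
  refine ⟨s, ⟨h0, h1⟩, ?_⟩
  apply Prod.ext
  · simp [dd]
  · simp [dh]

omit [Fintype I] in
/-- Different heights where two edges meet. -/
theorem MoveD.hg {v : I → E} {k : I} {x0 x1 : E} (h : MoveD σ v k x0 x1) {t : ℝ}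
    (ht : t ∈ Set.Icc (0 : ℝ) 1) (i j : I) (ha : ¬ Adj σ i j)
    (hp : dt (dd σ (mv v k x0 x1 t) i) (dd σ (mv v k x0 x1 t) j) ≠ 0)
    (h1 : 0 ≤ par σ (mv v k x0 x1 t) i j) (h2 : par σ (mv v k x0 x1 t) i j ≤ 1)
    (h3 : 0 ≤ par σ (mv v k x0 x1 t) j i) (h4 : par σ (mv v k x0 x1 t) j i ≤ 1) :
    OT.ht σ (mv v k x0 x1 t) i j ≠ OT.ht σ (mv v k x0 x1 t) j i := by
  intro e
  have m1 := mvl_space (σ := σ) (w := mv v k x0 x1 t) (i := i) h1 h2
  have m2 := mvl_space (σ := σ) (w := mv v k x0 x1 t) (i := j) h3 h4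
  have e' : (((mv v k x0 x1 t i).1 + (par σ (mv v k x0 x1 t) i j : ℂ) * dd σ (mv v k x0 x1 t) i,
      (mv v k x0 x1 t i).2 + par σ (mv v k x0 x1 t) i j * dh σ (mv v k x0 x1 t) i) : E) =
      ((mv v k x0 x1 t j).1 + (par σ (mv v k x0 x1 t) j i : ℂ) * dd σ (mv v k x0 x1 t) j,
      (mv v k x0 x1 t j).2 + par σ (mv v k x0 x1 t) j i * dh σ (mv v k x0 x1 t) j) := by
    apply Prod.ext
    · exact mp_symm _ hp
    · exact e
  rw [e'] at m1
  exact Set.disjoint_left.1 (h.dis t ht i j ha) m1 m2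

/-- All polygons of the move are tame.
* vtx: fix0, pth0.
* par0: two nonadjacent closed edges which meet and are parallel are collinear; both fixed: the start of
  one is on the line of the other (fix1). One of them moving (k or σ⁻¹ k), the other one j fixed: the
  neighbour of k (σ k or σ⁻¹ k), which is not a corner of j, is on the line of j (fix1). (The two moving
  edges are adjacent.)
* one: a fixed vertex is not on a fixed edge which does not contain it (fix1); it cannot be on both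
  moving edges (they would overlap: slit at k, and it is not X_t by pth0). X_t on two fixed edges: if
  they are adjacent they meet only in the common corner (slit), excluded by pth0; if not, they cross
  (fix1 excludes corners and parallels): pth1.
* trp: on a fixed edge i two fixed partners at the same point are equal (fix2), and the two moving edges
  are not both partners at the same point (they meet only in X_t, which would be an endpoint). On a
  moving edge all partners are fixed; two different partners at the same point z cross each other there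
  (not adjacent by slit: z is interior), and three would contradict fix2.
* hgt: dis. -/
theorem MoveD.tame {v : I → E} {k : I} {x0 x1 : E} (h : MoveD σ v k x0 x1) {t : ℝ}
    (ht : t ∈ Set.Icc (0 : ℝ) 1) : Tame σ (mv v k x0 x1 t) where
  slit := h.slit t ht
  par0 _ _ ha hp := h.pr0 ht ha hp
  vtx := h.vt ht
  one := h.on1 ht
  trp := h.tr ht
  hgt := h.hg ht

theorem MoveD.Zh_eq {v : I → E} {k : I} {x0 x1 : E} (h : MoveD σ v k x0 x1) (N : ℕ) :
    Zh σ (Function.update v k x0) N = Zh σ (Function.update v k x1) N := by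
  have hc : ContinuousOn (mv v k x0 x1) (Set.Icc 0 1) := by
    apply Continuous.continuousOn
    exact continuous_const.update k AffineMap.lineMap_continuous
  have e := path_const hc (fun t ht => h.tame ht) h.g0 h.g1 N
  have e0 : mv v k x0 x1 0 = Function.update v k x0 := by
    rw [mv, AffineMap.lineMap_apply_zero]
  have e1 : mv v k x0 x1 1 = Function.update v k x1 := by
    rw [mv, AffineMap.lineMap_apply_one]
  rw [e0, e1] at e
  exact e

end Pool.Agent.Lib.MP_ca0971_gt.OT
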