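import Pool.Agent.Lib.MP_ca0971_gt.OT.Path.Dense
import Pool.Agent.Lib.MP_ca0971_gt.OT.Loc.Main

/-!
# Project OT, Path: Zh is constant along paths of tame polygons
-/

set_option autoImplicit false

namespace Pool.Agent.Lib.MP_ca0971_gt.OT

open Finset Filter Topology

variable {I : Type} [Fintype I] [DecidableEq I] {σ : Equiv.Perm I}

/-- For tame v let ζ(v) be the value of local_const (unique by gen_dense). ζ ∘ γ is locally constant on
[0,1], which is connected; at the ends ζ (γ 0) = Zh (γ 0) (γ 0 itself is generic and near). -/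
theorem path_const {γ : ℝ → I → E} (hc : ContinuousOn γ (Set.Icc 0 1))
    (hT : ∀ t ∈ Set.Icc (0 : ℝ) 1, Tame σ (γ t)) (h0 : Gen σ (γ 0)) (h1 : Gen σ (γ 1)) (N : ℕ) :
    Zh σ (γ 0) N = Zh σ (γ 1) N := by
  have hex : ∀ t : Set.Icc (0 : ℝ) 1,
      ∃ ζ : ℝ, ∀ᶠ v' in 𝓝 (γ t), Gen σ v' → Zh σ v' N = ζ := fun t =>
    local_const (hT t t.2) N
  choose ζ hζ using hex
  have hcr : Continuous ((Set.Icc (0 : ℝ) 1).domRestrict γ) := hc.domRestrict
  have hl : IsLocallyConstant ζ := by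
    refine (IsLocallyConstant.iff_eventually_eq ζ).2 fun t => ?_
    have h2 : ∀ᶠ v'' in 𝓝 (γ t), ∀ᶠ v' in 𝓝 v'', Gen σ v' → Zh σ v' N = ζ t :=
      eventually_eventually_nhds.2 (hζ t)
    have h3 : ∀ᶠ s : Set.Icc (0 : ℝ) 1 in 𝓝 t, ∀ᶠ v' in 𝓝 (γ (s : ℝ)), Gen σ v' → Zh σ v' N = ζ t :=
      (hcr.tendsto t).eventually h2
    filter_upwards [h3] with s hs
    obtain ⟨v', hG, h4, h5⟩ := ((gen_dense (hT s s.2)).and_eventually (hs.and (hζ s))).exists
    rw [← h4 hG, h5 hG]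
  have hconn : PreconnectedSpace (Set.Icc (0 : ℝ) 1) :=
    Subtype.preconnectedSpace isPreconnected_Icc
  have h2 := hl.apply_eq_of_preconnectedSpace (⟨0, by simp⟩ : Set.Icc (0 : ℝ) 1)
    (⟨1, by simp⟩ : Set.Icc (0 : ℝ) 1)
  have h3 := (hζ ⟨0, by simp⟩).self_of_nhds h0
  have h4 := (hζ ⟨1, by simp⟩).self_of_nhds h1
  rw [h3, h4, h2]

end Pool.Agent.Lib.MP_ca0971_gt.OT
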